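import Pool.Agent.PLG.StmtsB

/-!
Squad PLG (MP_1fc801_co), row POP: popular sums.
-/

set_option autoImplicit false

namespace Pool.Agent.PLG.H94

open scoped Pointwise

section pop

variable {α : Type} [DecidableEq α] [AddCommGroup α]

/-- the number of the representations of `s` -/
def rp (P : Finset α) (s : α) : ℕ := ((P ×ˢ P).filter fun p => p.1 + p.2 = s).card

theorem rp_le (P : Finset α) (s : α) : rp P s ≤ P.card := by
  unfold rp
  refine Finset.card_le_card_of_injOn Prod.fst ?_ ?_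
  · intro p hp
    rw [Finset.mem_coe, Finset.mem_filter, Finset.mem_product] at hp
    exact hp.1.1
  · intro p hp q hq hpq
    rw [Finset.mem_coe, Finset.mem_filter] at hp hq
    have h1 : p.1 = q.1 := hpq
    have h2 : p.1 + p.2 = q.1 + q.2 := hp.2.trans hq.2.symm
    rw [h1] at h2
    exact Prod.ext h1 (add_left_cancel h2)

theorem sum_rp (P : Finset α) : ∑ s ∈ P + P, rp P s = P.card ^ 2 := by
  have h : ((P ×ˢ P : Finset (α × α)) : Set (α × α)).MapsTo (fun p => p.1 + p.2)
      ((P + P : Finset α) : Set α) := by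
    intro p hp
    rw [Finset.mem_coe, Finset.mem_product] at hp
    exact Finset.mem_coe.2 (Finset.add_mem_add hp.1 hp.2)
  have h1 := Finset.card_eq_sum_card_fiberwise h
  rw [Finset.card_product, ← sq] at h1
  exact h1.symm

theorem card_pop (P S : Finset α) :
    ((P ×ˢ P).filter (fun p => p.1 + p.2 ∈ S)).card = ∑ s ∈ S, rp P s := by
  have h : (((P ×ˢ P).filter (fun p => p.1 + p.2 ∈ S) : Finset (α × α)) : Set (α × α)).MapsTo
      (fun p => p.1 + p.2) (S : Set α) := by
    intro p hp
    rw [Finset.mem_coe, Finset.mem_filter] at hp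
    exact hp.2
  have h1 := Finset.card_eq_sum_card_fiberwise h
  rw [h1]
  refine Finset.sum_congr rfl fun s hs => ?_
  unfold rp
  congr 1
  ext p
  simp only [Finset.mem_filter]
  constructor
  · rintro ⟨⟨h2, -⟩, h3⟩
    exact ⟨h2, h3⟩
  · rintro ⟨h2, h3⟩
    refine ⟨⟨h2, ?_⟩, h3⟩
    rw [h3]
    exact hs

end pop

/-- **Row POP.** -/
theorem pop : PopStmt := by
  intro α _ _ P K hP hK hE
  have hn : (0 : ℝ) < P.card := by
    have := Finset.card_pos.2 hP
    exact_mod_cast this
  have hK0 : (0 : ℝ) < K := lt_of_lt_of_le one_pos hK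
  set n : ℝ := (P.card : ℝ) with hndef
  set S : Finset α := (P + P).filter fun s => n ≤ 2 * K * (rp P s : ℝ) with hS
  have hsum : ∑ s ∈ P + P, (rp P s : ℝ) = n ^ 2 := by
    rw [hndef]
    exact_mod_cast sum_rp P
  have hSsub : S ⊆ P + P := Finset.filter_subset _ _
  have hSle : ∑ s ∈ S, (rp P s : ℝ) ≤ n ^ 2 := by
    rw [← hsum]
    exact Finset.sum_le_sum_of_subset_of_nonneg hSsub fun s _ _ => Nat.cast_nonneg _
  refine ⟨S, ?_, ?_⟩
  · have h1 : (S.card : ℝ) * n ≤ 2 * K * ∑ s ∈ S, (rp P s : ℝ) := by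
      rw [Finset.mul_sum, ← nsmul_eq_mul]
      refine Finset.card_nsmul_le_sum S _ n ?_
      intro s hs
      exact (Finset.mem_filter.1 hs).2
    have h2 : (S.card : ℝ) * n ≤ 2 * K * n ^ 2 :=
      h1.trans (mul_le_mul_of_nonneg_left hSle (by positivity))
    have h3 : (S.card : ℝ) * n ≤ (2 * K * n) * n := by
      calc (S.card : ℝ) * n ≤ 2 * K * n ^ 2 := h2
        _ = (2 * K * n) * n := by ring
    exact le_of_mul_le_mul_right h3 hn
  · rw [card_pop]
    push_cast
    have hEs : (Finset.addEnergy P P : ℝ) = ∑ s ∈ P + P, (rp P s : ℝ) ^ 2 := by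
      rw [Finset.addEnergy_eq_sum_sq' P P]
      push_cast
      rfl
    have hsplit : ∑ s ∈ P + P, (rp P s : ℝ) ^ 2
        ≤ n * ∑ s ∈ S, (rp P s : ℝ) + n / (2 * K) * n ^ 2 := by
      rw [← Finset.sum_filter_add_sum_filter_not (P + P) (fun s => n ≤ 2 * K * (rp P s : ℝ))]
      refine add_le_add ?_ ?_
      · rw [Finset.mul_sum]
        refine Finset.sum_le_sum fun s _ => ?_
        have h1 : (rp P s : ℝ) ≤ n := by
          rw [hndef]
          exact_mod_cast rp_le P s
        rw [sq]
        exact mul_le_mul_of_nonneg_right h1 (Nat.cast_nonneg _)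
      · have h2 : ∑ s ∈ (P + P).filter (fun s => ¬ n ≤ 2 * K * (rp P s : ℝ)), (rp P s : ℝ) ^ 2
            ≤ ∑ s ∈ (P + P).filter (fun s => ¬ n ≤ 2 * K * (rp P s : ℝ)),
              n / (2 * K) * (rp P s : ℝ) := by
          refine Finset.sum_le_sum fun s hs => ?_
          have h3 := (Finset.mem_filter.1 hs).2
          rw [not_le] at h3
          have h4 : (rp P s : ℝ) ≤ n / (2 * K) := by
            rw [le_div_iff₀ (by positivity)]
            linarith
          rw [sq]
          exact mul_le_mul_of_nonneg_right h4 (Nat.cast_nonneg _)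
        refine h2.trans ?_
        rw [← Finset.mul_sum]
        refine mul_le_mul_of_nonneg_left ?_ (by positivity)
        rw [← hsum]
        exact Finset.sum_le_sum_of_subset_of_nonneg (Finset.filter_subset _ _)
          fun s _ _ => Nat.cast_nonneg _
    rw [hEs] at hE
    have h5 : n ^ 3 ≤ K * (n * ∑ s ∈ S, (rp P s : ℝ) + n / (2 * K) * n ^ 2) :=
      hE.trans (mul_le_mul_of_nonneg_left hsplit hK0.le)
    have h6 : K * (n * ∑ s ∈ S, (rp P s : ℝ) + n / (2 * K) * n ^ 2)
        = K * n * ∑ s ∈ S, (rp P s : ℝ) + n ^ 3 / 2 := by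
      field_simp
    rw [h6] at h5
    have h7 : n * n ^ 2 ≤ n * (2 * K * ∑ s ∈ S, (rp P s : ℝ)) := by
      nlinarith [h5]
    exact le_of_mul_le_mul_left h7 hn

end Pool.Agent.PLG.H94
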