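import Pool.Agent.PLG.Stmts

/-!
Squad PLG (MP_1fc801_co), row BOX: boxes with arbitrary sides.
-/

set_option autoImplicit false

namespace Pool.Agent.PLG.H94

open Module Pool.Agent.PLG

/-- the vector `(N i)⁻¹ e_i` -/
noncomputable def ub {d : ℕ} (N : Fin d → ℕ) (i : Fin d) : Fin d → ℝ :=
  fun j => if j = i then ((N i : ℝ))⁻¹ else 0

theorem sum_ub {d : ℕ} (N : Fin d → ℕ) (c : Fin d → ℝ) (j : Fin d) :
    (∑ i, c i • ub N i) j = c j * ((N j : ℝ))⁻¹ := by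
  rw [Finset.sum_apply, Finset.sum_eq_single j]
  · simp [ub]
  · intro i _ hi
    simp [ub, Ne.symm hi]
  · intro h
    exact absurd (Finset.mem_univ j) h

theorem norm_le_one {d : ℕ} (N : Fin d → ℕ) (hN : ∀ i, 1 ≤ N i) (x : Fin d → ℤ) :
    ‖∑ i, (x i : ℝ) • ub N i‖ ≤ 1 ↔ ∀ i, |x i| ≤ (N i : ℤ) := by
  rw [pi_norm_le_iff_of_nonneg zero_le_one]
  refine forall_congr' fun i => ?_
  rw [sum_ub]
  have hp : (0 : ℝ) < (N i : ℝ) := by
    have := hN i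
    exact_mod_cast this
  rw [Real.norm_eq_abs, abs_mul, abs_inv, abs_of_pos hp, ← div_eq_mul_inv, div_le_one hp]
  rw [← Int.cast_abs]
  exact_mod_cast Iff.rfl

theorem lin_ub {d : ℕ} (N : Fin d → ℕ) (hN : ∀ i, 1 ≤ N i) : LinearIndependent ℝ (ub N) := by
  rw [Fintype.linearIndependent_iff]
  intro g hg i
  have h1 := congrFun hg i
  rw [sum_ub] at h1
  have hp : (0 : ℝ) < (N i : ℝ) := by
    have := hN i
    exact_mod_cast this
  rcases mul_eq_zero.1 h1 with h2 | h2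
  · exact h2
  · exact absurd h2 (inv_ne_zero hp.ne')

theorem ncard_box {d : ℕ} (N : Fin d → ℕ) (hN : ∀ i, 1 ≤ N i) :
    ({x : Fin d → ℤ | ‖∑ i, (x i : ℝ) • ub N i‖ ≤ 1}.ncard : ℕ) = ∏ i, (2 * N i + 1) := by
  have h1 : {x : Fin d → ℤ | ‖∑ i, (x i : ℝ) • ub N i‖ ≤ 1}
      = ((Fintype.piFinset fun i => Finset.Icc (-(N i : ℤ)) (N i) : Finset (Fin d → ℤ)) :
        Set (Fin d → ℤ)) := by
    ext x
    rw [Set.mem_setOf_eq, norm_le_one N hN, Finset.mem_coe, Fintype.mem_piFinset]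
    refine forall_congr' fun i => ?_
    rw [Finset.mem_Icc, abs_le]
  rw [h1, Set.ncard_coe_finset, Fintype.card_piFinset]
  refine Finset.prod_congr rfl fun i _ => ?_
  rw [Int.card_Icc]
  omega

/-- **Row BOX.** -/
theorem box (cvx : CvxStmt) : BoxStmt := by
  intro d K
  obtain ⟨ε, c, A, hε, hc, H⟩ := cvx d K
  refine ⟨ε, c, A, hε, hc, ?_⟩
  intro N v P p₀ hN hv hP hx hcard hnd
  refine H (Fin d → ℝ) (ub N) v P p₀ (lin_ub N hN) hv hP ?_ ?_ hnd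
  · intro p hp
    obtain ⟨x, h1, h2⟩ := hx p hp
    exact ⟨x, (norm_le_one N hN x).2 h1, h2⟩
  · rw [ncard_box N hN]
    push_cast
    exact hcard

end Pool.Agent.PLG.H94
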